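import Pool.Agent.helper70.BND.SpecH

/-!
# Row FWD: sums over the words of the vertices
-/

set_option autoImplicit false

open scoped Topology
open Finset

namespace Pool.Agent.BND.EX

lemma FWD_Nb (m : ℕ) (A : LD) (J : ℕ) : (D0 A.l J).length + 3 ≤ Nb m A J ∧
    2 ^ m * (2 * hw A.l.h (Dl A.l.N J)) ≤ Nb m A J := by
  unfold Nb
  constructor
  · omega
  · have h1 : 2 ^ m * (2 * hw A.l.h (Dl A.l.N J)) ≤
        2 ^ (m + 1) * (4 * hw A.l.h (Dl A.l.N J) + 2 * A.cs * ∑ v ∈ range A.n, A.h v) := by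
      refine Nat.mul_le_mul (Nat.pow_le_pow_right two_pos (Nat.le_succ m)) ?_
      omega
    omega

theorem FWD (hMKL : MKL_stmt) (hVWC : VWC_stmt) (hSWE : SWE_stmt) (hFWA : FWA_stmt) : FWD_stmt := by
  intro m A A' M J Rk w hNx hW
  have hLv := (hMKL A hNx.gl).1
  have hNN : A'.n ≤ A'.l.N := by
    have : A'.l.N = A'.n + A'.n * A'.n + A'.k := rfl
    omega
  have h0U : (0 : ℝ) ∈ U := by
    unfold U
    exact ⟨le_refl _, zero_le_one⟩
  have hlet : ∀ v', v' < A'.n → ∀ a ∈ w v' 0, a.1 < A.l.N ∧ a.2 ∈ U := fun v' hv' =>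
    (hFWA m A A' M J Rk w hNx hW).2.1 v' 0 (lt_of_lt_of_le hv' hNN) h0U
  have hM : ∀ v', v' < A'.n → ∀ v, v < A.n → (D0 A.l J).length + 3 ≤ M v' v := fun v' hv' v hv =>
    (FWD_Nb m A J).1.trans (hNx.big v' v hv' hv)
  have hV := fun v' (hv' : v' < A'.n) => ((hVWC A J hNx.gl).2 M).2.2.1 v' (hM v' hv')
  have hw0 : ∀ v', v' < A'.n → w v' 0 = wv A.l J (M v') := fun v' hv' => hW.vt v' 0 hv'
  refine ⟨fun v' z hv' => ?_, fun v' ς hv' hς => ⟨?_, ?_⟩⟩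
  · have h1 := (hSWE A.l hLv (w v' 0) (hlet v' hv')).1 z
    rw [h1]
    refine Finset.sum_congr rfl fun v hv => ?_
    rw [hw0 v' hv', (hV v' hv').2.2.1 v (Finset.mem_range.mp hv)]
  · have h1 := (hSWE A.l hLv (w v' 0) (hlet v' hv')).2.2 ς hς
    have h2 : ∑ v ∈ range A.l.n, (cv A.l (w v' 0) v : ℝ) * ς v 0 = ∑ v ∈ range A.n, (M v' v : ℝ) * ς v 0 := by
      refine Finset.sum_congr rfl fun v hv => ?_
      rw [hw0 v' hv', (hV v' hv').2.2.1 v (Finset.mem_range.mp hv)]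
    rw [h2] at h1
    refine h1.trans ?_
    have h3 := (hV v' hv').2.2.2.1
    rw [← hw0 v' hv'] at h3
    have h4 : ((nvh A.l (w v' 0) : ℕ) : ℝ) ≤ hw A.l.h (Dl A.l.N J) := by exact_mod_cast h3
    linarith
  · have h1 : Nb m A J ≤ A'.h v' := by
      rw [hNx.hh v' hv']
      have h0 : 0 < A.n := hNx.gl.n0
      calc Nb m A J ≤ M v' 0 := hNx.big v' 0 hv' h0
        _ ≤ M v' 0 * A.h 0 := Nat.le_mul_of_pos_right _ (hNx.gl.pos 0 h0)
        _ ≤ ∑ v ∈ range A.n, M v' v * A.h v :=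
          Finset.single_le_sum (f := fun v => M v' v * A.h v) (fun _ _ => Nat.zero_le _)
            (Finset.mem_range.mpr h0)
    have h2 : 2 ^ m * (2 * hw A.l.h (Dl A.l.N J)) ≤ A'.h v' := (FWD_Nb m A J).2.trans h1
    have h3 : (2 : ℝ) ^ m * (2 * hw A.l.h (Dl A.l.N J)) ≤ A'.h v' := by exact_mod_cast h2
    have h4 : (1 / 2 : ℝ) ^ m * 2 ^ m = 1 := by rw [← mul_pow]; norm_num
    have h5 : (0 : ℝ) < (1 / 2) ^ m := by positivity
    have h6 : A'.l.h v' = A'.h v' := (hMKL A' hNx.gl').2.1 v' hv'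
    rw [h6]
    calc (2 * hw A.l.h (Dl A.l.N J) : ℝ) = (1 / 2 : ℝ) ^ m * (2 ^ m * (2 * hw A.l.h (Dl A.l.N J))) := by
          rw [← mul_assoc, h4, one_mul]
      _ ≤ (1 / 2 : ℝ) ^ m * A'.h v' := mul_le_mul_of_nonneg_left h3 h5.le

end Pool.Agent.BND.EX
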