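import Pool.Agent.helper70.BND.SpecH

/-!
# Row STA: the initial state
-/

set_option autoImplicit false

open scoped Topology
open Finset

namespace Pool.Agent.BND.EX

theorem STA (hGLV : GLV_stmt) (hMKL : MKL_stmt) (hEMC : EMC_stmt) (hLAT : LAT_stmt) : STA_stmt := by
  intro H _ P g hS H' hg htf
  obtain ⟨k, c, hL⟩ := hLAT H H' htf 1 (fun _ => 1) (fun _ => g)
  set A : LD := ⟨1, fun _ => 1, k, c⟩ with hA
  have hsum : ∑ v ∈ range A.n, A.h v • (fun _ => g : ℕ → H) v = g := by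
    have : ∑ v ∈ range 1, 1 • (fun _ => g : ℕ → H) v = g := by simp
    exact this
  have hGl : A.Gl := hGLV H H' A (fun _ => g) hL one_pos (fun _ _ => one_pos) (by rw [hsum]; exact hg)
  have hLv := (hMKL A hGl).1
  refine ⟨⟨A, fun _ => g, [BND.emb A.l]⟩, hGl, fun v _ => le_refl _, fun v _ => hS.unit, hsum, hL, ?_,
    List.mem_singleton.mpr rfl⟩
  intro Φ hΦ
  rw [List.mem_singleton.mp hΦ]
  exact hEMC A.l hLv

end Pool.Agent.BND.EX
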